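import Pool.Agent.Y33.SM.Fin

/-!
# A Morse limited group all of whose asymptotic cones have cut points (MP_021201_al)

There is a finitely generated group `G` with a finite generating set `A` such that the Cayley graph
of `G` is Morse limited and such that every asymptotic cone of the Cayley graph has a cut point.
So the answer to Q1 is negative.

The theorem speaks of every metric space `X` which contains the vertex set of the Cayley graph,
with the word metric, isometrically and coarsely densely. For `f = id` the space `X` is the vertex
set itself; the geometric realization of the Cayley graph is another such space, with `R = 1 / 2`.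
-/

set_option autoImplicit false

namespace Pool.Agent.Results.MP_021201_al.CutPointsEverywhere

open Filter Pool.Agent.H659R3.MorseLim Pool.Agent.Y33.LG

/-- `γ`, restricted to the interval `I`, is a `(lam, eps)`-quasi-geodesic. -/
def IsQuasiGeod {X : Type} [MetricSpace X] (lam eps : ℝ) (I : Set ℝ) (γ : ℝ → X) : Prop :=
  ∀ s ∈ I, ∀ t ∈ I, lam⁻¹ * |s - t| - eps ≤ dist (γ s) (γ t) ∧
    dist (γ s) (γ t) ≤ lam * |s - t| + eps

/-- `γ`, restricted to the interval `I`, is `M`-Morse: every quasi-geodesic `q : [c, d] → X` whose
endpoints lie on `γ` stays within distance `M lam eps` of the image of `γ`. -/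
def IsMorse {X : Type} [MetricSpace X] (M : ℝ → ℝ → NNReal) (I : Set ℝ) (γ : ℝ → X) : Prop :=
  ∀ lam eps : ℝ, 1 ≤ lam → 0 ≤ eps → ∀ c d : ℝ, c ≤ d → ∀ q : ℝ → X,
    IsQuasiGeod lam eps (Set.Icc c d) q → q c ∈ γ '' I → q d ∈ γ '' I →
      ∀ t ∈ Set.Icc c d, Metric.infDist (q t) (γ '' I) ≤ M lam eps

/-- A metric space is Morse limited: for every Morse gauge `M` and all constants, the domains of
the `M`-Morse quasi-geodesics are bounded. -/
def MorseLimited (X : Type) [MetricSpace X] : Prop :=
  ∀ (M : ℝ → ℝ → NNReal) (lam eps : ℝ), 1 ≤ lam → 0 ≤ eps → ∃ B : ℝ, ∀ (I : Set ℝ) (γ : ℝ → X),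
    I.OrdConnected → IsQuasiGeod lam eps I γ → IsMorse M I γ → ∀ s ∈ I, ∀ t ∈ I, |s - t| ≤ B

/-- `C` is the asymptotic cone of `X` for the ultrafilter `ω`, the scaling sequence `s` and the
base points `e`: the points of `C` are the classes of the sequences `x` in `X` for which
`dist (x j) (e j) / s j` is bounded, and the distance of the classes of `x` and `y` is the limit
of `dist (x j) (y j) / s j` along `ω`. -/
def IsAsCone {X : Type} [MetricSpace X] (ω : Ultrafilter ℕ) (s : ℕ → ℝ) (e : ℕ → X) (C : Type)
    [MetricSpace C] : Prop :=
  ∃ f : {x : ℕ → X // ∃ K : ℝ, ∀ j, dist (x j) (e j) ≤ K * s j} → C, Function.Surjective f ∧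
    ∀ x y, Tendsto (fun j => dist (x.1 j) (y.1 j) / s j) ω (nhds (dist (f x) (f y)))

/-- There are a group `G` and a finite generating set `A` of `G` such that every metric space `X`
in which the vertex set `Cay A` of the Cayley graph, with the word metric, embeds isometrically
and coarsely densely (for example `Cay A` itself, or the Cayley graph) is Morse limited, and
such that for every non-principal ultrafilter `ω`, every scaling sequence `s` tending to infinity
and all base points `e` the asymptotic cone of `X` exists, is connected and has a cut point. -/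
theorem result : ∃ (G : Type) (_ : Group G) (A : FinGen G),
    ∀ (X : Type) [MetricSpace X] (f : Cay A → X), Isometry f → (∃ R, ∀ x, ∃ g, dist x (f g) ≤ R) →
      MorseLimited X ∧ ∀ (ω : Ultrafilter ℕ) (s : ℕ → ℝ) (e : ℕ → X), (ω : Filter ℕ) ≤ cofinite →
        (∀ j, 0 < s j) → Tendsto s atTop atTop →
          (∃ (C : Type) (_ : MetricSpace C), IsAsCone ω s e C) ∧
          ∀ (C : Type) [MetricSpace C], IsAsCone ω s e C →
            ConnectedSpace C ∧ ∃ p : C, ¬ IsPreconnected ({p}ᶜ : Set C) :=
  Pool.Agent.Y33.SM.final

end Pool.Agent.Results.MP_021201_al.CutPointsEverywhere
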